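import Mathlib

open Polynomial CategoryTheory AlgebraicGeometry Limits
open scoped TensorProduct

namespace Pool.Agent.W417.MgA1

theorem desc_abstract {A R : Type} [CommRing A] [CommRing R] [Algebra A R]
    [Module.FaithfullyFlat A R] {ι : Type} (γ : ι → R →ₐ[A] R)
    (hγ : ∀ z : R ⊗[A] R,
      (∀ i, Algebra.TensorProduct.lift (AlgHom.id A R) (γ i) (fun _ _ => .all _ _) z = 0) → z = 0)
    (M : Scheme.{0}) [M.IsSeparated] (h : Spec (.of R) ⟶ M)
    (hinv : ∀ i, Spec.map (CommRingCat.ofHom (γ i).toRingHom) ≫ h = h) :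
    ∃ h' : Spec (.of A) ⟶ M, Spec.map (CommRingCat.ofHom (algebraMap A R)) ≫ h' = h := by
  have hFS : Flat (Spec.map (CommRingCat.ofHom (algebraMap A R))) ∧
      Surjective (Spec.map (CommRingCat.ofHom (algebraMap A R))) := by
    rw [flat_and_surjective_SpecMap_iff]
    show (algebraMap A R).FaithfullyFlat
    rw [RingHom.faithfullyFlat_algebraMap_iff]
    infer_instance
  have := hFS.1
  have := hFS.2
  have := isRegularEpi_of_flat_of_surjective_of_isAffine
    (Spec.map (CommRingCat.ofHom (algebraMap A R)))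
  have hPB := isPullback_SpecMap_of_isPushout _ _ _ _
    (CommRingCat.isPushout_tensorProduct A R R)
  refine IsRegularEpi.exists_of_isKernelPair _ hPB h ?_
  set a := Spec.map (CommRingCat.ofHom (S := R ⊗[A] R)
    (Algebra.TensorProduct.includeLeftRingHom)) ≫ h with ha
  set b := Spec.map (CommRingCat.ofHom (S := R ⊗[A] R)
    (Algebra.TensorProduct.includeRight.toRingHom)) ≫ h with hb
  -- the morphisms `Spec R ⟶ Spec (R ⊗ R)`
  let μ : ι → (R ⊗[A] R →ₐ[A] R) := fun i =>
    Algebra.TensorProduct.lift (AlgHom.id A R) (γ i) (fun _ _ => .all _ _)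
  have hμ : ∀ i, Spec.map (CommRingCat.ofHom (μ i).toRingHom) ≫ a =
      Spec.map (CommRingCat.ofHom (μ i).toRingHom) ≫ b := by
    intro i
    rw [ha, hb, ← Category.assoc, ← Category.assoc, ← Spec.map_comp, ← Spec.map_comp]
    have e1 : (CommRingCat.ofHom (S := R ⊗[A] R) (Algebra.TensorProduct.includeLeftRingHom)) ≫
        CommRingCat.ofHom (μ i).toRingHom = 𝟙 (CommRingCat.of R) := by
      ext x
      simp [μ]
    have e2 : (CommRingCat.ofHom (S := R ⊗[A] R)
        (Algebra.TensorProduct.includeRight.toRingHom)) ≫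
        CommRingCat.ofHom (μ i).toRingHom = CommRingCat.ofHom (γ i).toRingHom := by
      ext x
      simp [μ]
    rw [e1, e2, hinv i]
    simp
  have hcl : IsClosedImmersion (equalizer.ι a b) := inferInstance
  have hsurj : IsAffine (equalizer a b) ∧ Function.Surjective ((equalizer.ι a b).appTop) :=
    by apply IsClosedImmersion.isAffine_surjective_of_isAffine
  have := hsurj.1
  have hinj : Function.Injective ((equalizer.ι a b).appTop) := by
    rw [injective_iff_map_eq_zero]
    intro z hz
    have key : ∀ i, (Spec.map (CommRingCat.ofHom (μ i).toRingHom)).appTop z = 0 := by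
      intro i
      have e : Spec.map (CommRingCat.ofHom (μ i).toRingHom) =
          equalizer.lift _ (hμ i) ≫ equalizer.ι a b := (equalizer.lift_ι _ _).symm
      rw [e, Scheme.Hom.comp_appTop, CommRingCat.comp_apply, hz, map_zero]
    have h2 : (Scheme.ΓSpecIso (CommRingCat.of (R ⊗[A] R))).hom z = 0 := by
      apply hγ
      intro i
      have e3 := congr($(Scheme.ΓSpecIso_naturality (CommRingCat.ofHom (μ i).toRingHom)) z)
      rw [CommRingCat.comp_apply, key i, map_zero] at e3
      exact e3.symm
    have h3 : (Scheme.ΓSpecIso (CommRingCat.of (R ⊗[A] R))).inv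
        ((Scheme.ΓSpecIso (CommRingCat.of (R ⊗[A] R))).hom z) = z := by
      simp
    rw [← h3, h2, map_zero]
  have : IsIso ((equalizer.ι a b).appTop) := by
    rw [ConcreteCategory.isIso_iff_bijective]
    exact ⟨hinj, hsurj.2⟩
  have : IsIso (equalizer.ι a b) := by
    have h4 := Scheme.isoSpec_hom_naturality (equalizer.ι a b)
    have h5 : equalizer.ι a b = (Scheme.isoSpec _).hom ≫ Spec.map ((equalizer.ι a b).appTop) ≫
        (Scheme.isoSpec _).inv := by
      rw [← Category.assoc, Iso.eq_comp_inv]
      exact h4.symm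
    rw [h5]
    infer_instance
  rw [← cancel_epi (equalizer.ι a b)]
  exact equalizer.condition a b

end Pool.Agent.W417.MgA1
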