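import Mathlib

open Polynomial
open scoped TensorProduct

namespace Pool.Agent.W417.MgA1

/-- a polynomial expression of degree `< m` vanishing at all `m`-th roots of unity is zero -/
theorem vanish {R : Type} [CommRing R] [IsDomain R] [Algebra ℂ R] (m : ℕ) (c : ℕ → R)
    (h : ∀ ζ : ℂ, ζ ^ m = 1 → ∑ i ∈ Finset.range m, c i * (algebraMap ℂ R ζ) ^ i = 0) :
    ∀ i < m, c i = 0 := by
  intro i hi
  have hm : 0 < m := by omega
  set P : R[X] := ∑ i ∈ Finset.range m, C (c i) * X ^ i with hP
  have hcoef : ∀ k, P.coeff k = if k < m then c k else 0 := by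
    intro k
    rw [hP, Polynomial.finsetSum_coeff]
    simp only [coeff_C_mul, coeff_X_pow, mul_ite, mul_one, mul_zero, Finset.sum_ite_eq,
      Finset.mem_range]
  have hdeg : P.natDegree < m := by
    by_contra hcon
    push Not at hcon
    have hne : P ≠ 0 := by
      intro h0
      rw [h0, natDegree_zero] at hcon
      omega
    have h2 : P.coeff P.natDegree ≠ 0 := by
      rw [coeff_natDegree]
      exact leadingCoeff_ne_zero.mpr hne
    rw [hcoef, if_neg (by omega)] at h2
    exact h2 rfl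
  have hinj : Function.Injective (algebraMap ℂ R) := (algebraMap ℂ R).injective
  have hP0 : P = 0 := by
    apply eq_zero_of_natDegree_lt_card_of_eval_eq_zero' P
      ((nthRootsFinset m (1:ℂ)).map ⟨algebraMap ℂ R, hinj⟩)
    · intro x hx
      rw [Finset.mem_map] at hx
      obtain ⟨ζ, hζ, rfl⟩ := hx
      rw [mem_nthRootsFinset hm] at hζ
      simp only [hP, Function.Embedding.coeFn_mk, eval_finsetSum, eval_mul, eval_C, eval_pow,
        eval_X]
      exact h ζ hζ
    · rw [Finset.card_map, (Complex.isPrimitiveRoot_exp m hm.ne').card_nthRootsFinset]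
      exact hdeg
  have h3 := hcoef i
  rw [hP0, if_pos hi, coeff_zero] at h3
  exact h3.symm

/-- span lemma -/
theorem span_lemma {R : Type} [CommRing R] [Algebra ℂ[X] R] (n : ℕ) (hn : 2 ≤ n) (s t : R)
    (hs : algebraMap ℂ[X] R X = s ^ n) (ht : t ^ (n - 1) = s ^ n - 1)
    (S : Submodule ℂ[X] R) (hS : ∀ i < n, ∀ j < n - 1, s ^ i * t ^ j ∈ S) :
    ∀ i j, s ^ i * t ^ j ∈ S := by
  have h1 : ∀ j < n - 1, ∀ i, s ^ i * t ^ j ∈ S := by
    intro j hj i
    induction i using Nat.strong_induction_on with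
    | _ i ih =>
      by_cases hi : i < n
      · exact hS i hi j hj
      · have e : s ^ i * t ^ j = (X : ℂ[X]) • (s ^ (i - n) * t ^ j) := by
          rw [Algebra.smul_def, hs, ← mul_assoc, ← pow_add, Nat.add_sub_cancel' (by omega)]
        rw [e]
        exact S.smul_mem _ (ih (i - n) (by omega))
  intro i j
  induction j using Nat.strong_induction_on generalizing i with
  | _ j ih =>
    by_cases hj : j < n - 1
    · exact h1 j hj i
    · have e : s ^ i * t ^ j = s ^ (i + n) * t ^ (j - (n - 1)) - s ^ i * t ^ (j - (n - 1)) := by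
        have : t ^ j = t ^ (n - 1) * t ^ (j - (n - 1)) := by
          rw [← pow_add, Nat.add_sub_cancel' (by omega)]
        rw [this, ht, pow_add]
        ring
      rw [e]
      exact S.sub_mem (ih _ (by omega) _) (ih _ (by omega) _)

/-- tensors killed by all `id ⊗ γ` vanish -/
theorem tensor_inj {R : Type} [CommRing R] [IsDomain R] [Algebra ℂ R] [Algebra ℂ[X] R]
    (n : ℕ) (hn : 2 ≤ n) (s t : R) (hs0 : s ≠ 0) (ht0 : t ≠ 0)
    (hspan : ∀ S : Submodule ℂ[X] R, (∀ i < n, ∀ j < n - 1, s ^ i * t ^ j ∈ S) → S = ⊤)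
    {ι : Type} (γ : ι → R →ₐ[ℂ[X]] R)
    (hγ : ∀ ζ ξ : ℂ, ζ ^ n = 1 → ξ ^ (n - 1) = 1 → ∃ i, γ i s = algebraMap ℂ R ζ * s ∧
      γ i t = algebraMap ℂ R ξ * t)
    (z : R ⊗[ℂ[X]] R)
    (hz : ∀ i, Algebra.TensorProduct.lift (AlgHom.id ℂ[X] R) (γ i) (fun _ _ => .all _ _) z = 0) :
    z = 0 := by
  -- normal form
  have hnf : ∀ z : R ⊗[ℂ[X]] R, ∃ r : ℕ → ℕ → R, z =
      ∑ i ∈ Finset.range n, ∑ j ∈ Finset.range (n - 1), r i j ⊗ₜ[ℂ[X]] (s ^ i * t ^ j) := by
    intro z
    induction z with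
    | zero => exact ⟨fun _ _ => 0, by simp⟩
    | add x y hx hy =>
      obtain ⟨r, hr⟩ := hx
      obtain ⟨r', hr'⟩ := hy
      refine ⟨fun i j => r i j + r' i j, ?_⟩
      rw [hr, hr']
      simp only [TensorProduct.add_tmul, Finset.sum_add_distrib]
    | tmul a b =>
      let S : Submodule ℂ[X] R :=
        { carrier := {b | ∃ r : ℕ → ℕ → R, a ⊗ₜ[ℂ[X]] b =
            ∑ i ∈ Finset.range n, ∑ j ∈ Finset.range (n - 1), r i j ⊗ₜ[ℂ[X]] (s ^ i * t ^ j)}
          add_mem' := by
            rintro x y ⟨r, hr⟩ ⟨r', hr'⟩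
            refine ⟨fun i j => r i j + r' i j, ?_⟩
            rw [TensorProduct.tmul_add, hr, hr']
            simp only [TensorProduct.add_tmul, Finset.sum_add_distrib]
          zero_mem' := ⟨fun _ _ => 0, by simp⟩
          smul_mem' := by
            rintro c x ⟨r, hr⟩
            refine ⟨fun i j => c • r i j, ?_⟩
            rw [TensorProduct.tmul_smul, hr]
            simp only [Finset.smul_sum, TensorProduct.smul_tmul'] }
      have hS : S = ⊤ := by
        apply hspan
        intro i hi j hj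
        refine ⟨fun i' j' => if i' = i ∧ j' = j then a else 0, ?_⟩
        rw [Finset.sum_eq_single i, Finset.sum_eq_single j]
        · simp
        · intro j' _ hj'
          simp [hj']
        · intro h; exact absurd (Finset.mem_range.mpr hj) h
        · intro i' _ hi'
          apply Finset.sum_eq_zero
          intro j' _
          simp [hi']
        · intro h; exact absurd (Finset.mem_range.mpr hi) h
      have : b ∈ S := by rw [hS]; trivial
      exact this
  obtain ⟨r, hr⟩ := hnf z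
  have key : ∀ ζ ξ : ℂ, ζ ^ n = 1 → ξ ^ (n - 1) = 1 →
      ∑ i ∈ Finset.range n, (∑ j ∈ Finset.range (n - 1),
        (r i j * s ^ i * t ^ j) * (algebraMap ℂ R ξ) ^ j) * (algebraMap ℂ R ζ) ^ i = 0 := by
    intro ζ ξ hζ hξ
    obtain ⟨i, hi1, hi2⟩ := hγ ζ ξ hζ hξ
    have h1 := hz i
    rw [hr] at h1
    simp only [map_sum, Algebra.TensorProduct.lift_tmul, AlgHom.id_apply, map_mul, map_pow,
      hi1, hi2] at h1
    rw [← h1]
    apply Finset.sum_congr rfl
    intro i _
    rw [Finset.sum_mul]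
    apply Finset.sum_congr rfl
    intro j _
    ring
  have hr0 : ∀ i < n, ∀ j < n - 1, r i j = 0 := by
    intro i hi j hj
    have h1 : ∀ ξ : ℂ, ξ ^ (n - 1) = 1 → ∑ j ∈ Finset.range (n - 1),
        (r i j * s ^ i * t ^ j) * (algebraMap ℂ R ξ) ^ j = 0 := by
      intro ξ hξ
      exact vanish n (fun i => ∑ j ∈ Finset.range (n - 1),
        (r i j * s ^ i * t ^ j) * (algebraMap ℂ R ξ) ^ j) (fun ζ hζ => key ζ ξ hζ hξ) i hi
    have h2 := vanish (n - 1) (fun j => r i j * s ^ i * t ^ j) h1 j hj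
    simpa [hs0, ht0] using h2
  rw [hr]
  apply Finset.sum_eq_zero
  intro i hi
  apply Finset.sum_eq_zero
  intro j hj
  rw [hr0 i (Finset.mem_range.mp hi) j (Finset.mem_range.mp hj), TensorProduct.zero_tmul]

end Pool.Agent.W417.MgA1
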