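import Pool.Agent.W525.MgA1.Stubs
import Pool.Agent.W417.MgA1.DescAbs
import Pool.Agent.W417.MgA1.DescAlg

open Polynomial CategoryTheory AlgebraicGeometry
open W525.MgA1

namespace Pool.Agent.W417.MgA1

variable (n : ℕ)

theorem of_pow : AdjoinRoot.of (X ^ (n - 1) - C (X ^ n - 1) : ℂ[X][X]) (X ^ n - 1) =
    BRing.s n ^ n - 1 := by
  have h : ∀ f : ℂ[X] →+* BRing n, f (X ^ n - 1) = f X ^ n - 1 := by
    intro f
    rw [RingHom.map_sub, RingHom.map_pow, RingHom.map_one]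
  exact h _

theorem rel : BRing.t n ^ (n - 1) = BRing.s n ^ n - 1 := by
  have h := AdjoinRoot.eval₂_root (X ^ (n - 1) - C (X ^ n - 1) : ℂ[X][X])
  rw [eval₂_sub, eval₂_X_pow, eval₂_C, sub_eq_zero] at h
  exact h.trans (of_pow n)

theorem of_inj (hn : 2 ≤ n) :
    Function.Injective (AdjoinRoot.of (X ^ (n - 1) - C (X ^ n - 1) : ℂ[X][X])) := by
  apply AdjoinRoot.of.injective_of_degree_ne_zero
  rw [degree_X_pow_sub_C (by omega)]
  have : n - 1 ≠ 0 := by omega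
  exact_mod_cast this

theorem s_ne (hn : 2 ≤ n) : BRing.s n ≠ 0 := by
  intro h
  have := of_inj n hn (a₁ := X) (a₂ := 0) (by rw [map_zero]; exact h)
  exact X_ne_zero this

theorem t_ne (hn : 2 ≤ n) : BRing.t n ≠ 0 := by
  intro h
  have h1 := rel n
  rw [h, zero_pow (by omega)] at h1
  have h2 : AdjoinRoot.of (X ^ (n - 1) - C (X ^ n - 1) : ℂ[X][X]) (X ^ n - 1) = 0 := by
    rw [of_pow]; exact h1.symm
  have h3 := of_inj n hn (a₁ := X ^ n - 1) (a₂ := 0) (by rw [map_zero]; exact h2)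
  have h4 := congrArg (fun p : ℂ[X] => p.coeff 0) h3
  have hn0 : n ≠ 0 := by omega
  simp [coeff_X_pow, coeff_one, hn0.symm] at h4

/-- the automorphism -/
theorem exists_gamma (ζ ξ : ℂ) (hζ : ζ ^ n = 1) (hξ : ξ ^ (n - 1) = 1) :
    ∃ γ : BRing n →ₐ[ℂ] BRing n, γ (BRing.s n) = ζ • BRing.s n ∧
      γ (BRing.t n) = ξ • BRing.t n := by
  let i₀ : ℂ[X] →ₐ[ℂ] BRing n := aeval (ζ • BRing.s n)
  have h0 : eval₂ (i₀ : ℂ[X] →+* BRing n) (ξ • BRing.t n)
      (X ^ (n - 1) - C (X ^ n - 1) : ℂ[X][X]) = 0 := by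
    rw [eval₂_sub, eval₂_X_pow, eval₂_C]
    have e1 : (ξ • BRing.t n) ^ (n - 1) = BRing.s n ^ n - 1 := by
      rw [_root_.smul_pow, hξ, one_smul, rel]
    have e2 : (i₀ : ℂ[X] →+* BRing n) (X ^ n - 1) = BRing.s n ^ n - 1 := by
      rw [RingHom.map_sub, RingHom.map_pow, RingHom.map_one]
      have : (i₀ : ℂ[X] →+* BRing n) X = ζ • BRing.s n := aeval_X _
      rw [this, _root_.smul_pow, hζ, one_smul]
    rw [e1, e2, sub_self]
  refine ⟨AdjoinRoot.liftAlgHom _ i₀ _ h0, ?_, ?_⟩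
  · show AdjoinRoot.liftAlgHom _ i₀ _ h0 (AdjoinRoot.of _ X) = _
    rw [AdjoinRoot.liftAlgHom_of]
    exact aeval_X _
  · show AdjoinRoot.liftAlgHom _ i₀ _ h0 (AdjoinRoot.root _) = _
    rw [AdjoinRoot.liftAlgHom_root]

/-- `BRing n` is spanned by monomials -/
theorem bring_span (S : AddSubgroup (BRing n)) (hsc : ∀ (c : ℂ), ∀ x ∈ S, c • x ∈ S)
    (h : ∀ i j, BRing.s n ^ i * BRing.t n ^ j ∈ S) : ∀ x, x ∈ S := by
  intro x
  induction x using AdjoinRoot.induction_on with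
  | ih p =>
    induction p using Polynomial.induction_on' with
    | add p q hp hq =>
      rw [map_add]; exact S.add_mem hp hq
    | monomial j q =>
      induction q using Polynomial.induction_on' with
      | add p q hp hq =>
        rw [map_add, map_add]; exact S.add_mem hp hq
      | monomial i c =>
        have e : AdjoinRoot.mk (X ^ (n - 1) - C (X ^ n - 1) : ℂ[X][X])
            (monomial j (monomial i c)) = c • (BRing.s n ^ i * BRing.t n ^ j) := by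
          rw [← C_mul_X_pow_eq_monomial, ← C_mul_X_pow_eq_monomial, map_mul, map_pow,
            AdjoinRoot.mk_X, AdjoinRoot.mk_C, map_mul, map_pow, Algebra.smul_def, mul_assoc]
          rfl
        rw [e]
        exact hsc c _ (h i j)

/-- general form -/
theorem desc_general {R : Type} [CommRing R] [IsDomain R] [Algebra ℂ R] (n : ℕ) (hn : 2 ≤ n)
    (s t : R) (hs0 : s ≠ 0) (ht0 : t ≠ 0) (hrel : t ^ (n - 1) = s ^ n - 1)
    (hinj : Function.Injective (aeval (s ^ n) : ℂ[X] →ₐ[ℂ] R))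
    (hgen : ∀ S : AddSubgroup R, (∀ c : ℂ, ∀ x ∈ S, c • x ∈ S) →
      (∀ i j, s ^ i * t ^ j ∈ S) → ∀ x, x ∈ S)
    (hγ : ∀ ζ ξ : ℂ, ζ ^ n = 1 → ξ ^ (n - 1) = 1 → ∃ γ : R →ₐ[ℂ] R,
      γ s = ζ • s ∧ γ t = ξ • t)
    (M : Scheme.{0}) [M.IsSeparated] (h : Spec (.of R) ⟶ M)
    (hinv : ∀ (γ : R →ₐ[ℂ] R) (ζ ξ : ℂ), ζ ^ n = 1 → ξ ^ (n - 1) = 1 →
      γ s = ζ • s → γ t = ξ • t → Spec.map (CommRingCat.ofHom γ.toRingHom) ≫ h = h) :
    ∃ h' : Spec (.of ℂ[X]) ⟶ M,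
      Spec.map (CommRingCat.ofHom (aeval (s ^ n) : ℂ[X] →ₐ[ℂ] R).toRingHom) ≫ h' = h := by
  let _ : Algebra ℂ[X] R := (aeval (s ^ n) : ℂ[X] →ₐ[ℂ] R).toRingHom.toAlgebra
  have hmap : ∀ p : ℂ[X], algebraMap ℂ[X] R p = aeval (s ^ n) p := fun p => rfl
  have : IsScalarTower ℂ ℂ[X] R := IsScalarTower.of_algebraMap_eq (by
    intro c
    rw [hmap, Polynomial.algebraMap_apply, Algebra.algebraMap_self_apply, aeval_C])
  have hX : algebraMap ℂ[X] R X = s ^ n := by rw [hmap, aeval_X]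
  have hspan : ∀ S : Submodule ℂ[X] R, (∀ i < n, ∀ j < n - 1, s ^ i * t ^ j ∈ S) → S = ⊤ := by
    intro S hS
    rw [eq_top_iff]
    intro x _
    refine hgen S.toAddSubgroup ?_ (span_lemma n hn s t hX hrel S hS) x
    intro c x hx
    have : c • x = (C c : ℂ[X]) • x := by
      rw [Algebra.smul_def, Algebra.smul_def, hmap, aeval_C]
    rw [this]
    exact S.smul_mem _ hx
  have hfin : Module.Finite ℂ[X] R := by
    classical
    refine ⟨⟨(Finset.range n ×ˢ Finset.range (n - 1)).image (fun p => s ^ p.1 * t ^ p.2), ?_⟩⟩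
    apply hspan
    intro i hi j hj
    apply Submodule.subset_span
    simp only [Finset.coe_image, Set.mem_image, Finset.mem_coe, Finset.mem_product,
      Finset.mem_range]
    exact ⟨(i, j), ⟨hi, hj⟩, rfl⟩
  have hfs : FaithfulSMul ℂ[X] R := (faithfulSMul_iff_algebraMap_injective _ _).mpr hinj
  have htf : Module.IsTorsionFree ℂ[X] R := by infer_instance
  have hflat : Module.Flat ℂ[X] R := by
    rw [Module.Flat.flat_iff_torsion_eq_bot_of_isBezout,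
      ← Submodule.isTorsionFree_iff_torsion_eq_bot]
    exact htf
  have hff : Module.FaithfullyFlat ℂ[X] R :=
    Module.FaithfullyFlat.of_comap_surjective (Algebra.IsIntegral.comap_surjective _ _)
  let ι : Type := {p : ℂ × ℂ // p.1 ^ n = 1 ∧ p.2 ^ (n - 1) = 1}
  have hγ' : ∀ p : ι, ∃ γ : R →ₐ[ℂ] R, γ s = p.1.1 • s ∧ γ t = p.1.2 • t := fun p =>
    hγ p.1.1 p.1.2 p.2.1 p.2.2
  choose γ hγ1 hγ2 using hγ'
  have hcomm : ∀ (p : ι) (q : ℂ[X]), γ p (algebraMap ℂ[X] R q) = algebraMap ℂ[X] R q := by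
    intro p q
    rw [hmap, ← aeval_algHom_apply, map_pow, hγ1, _root_.smul_pow, p.2.1, one_smul]
  let γ' : ι → R →ₐ[ℂ[X]] R := fun p =>
    { (γ p).toRingHom with commutes' := hcomm p }
  have hγ'e : ∀ p x, γ' p x = γ p x := fun p x => rfl
  obtain ⟨h', hh'⟩ := desc_abstract γ' (tensor_inj n hn s t hs0 ht0 hspan γ' (by
    intro ζ ξ hζ hξ
    refine ⟨⟨(ζ, ξ), hζ, hξ⟩, ?_, ?_⟩
    · rw [hγ'e, hγ1, Algebra.smul_def]
    · rw [hγ'e, hγ2, Algebra.smul_def])) M h (by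
    intro p
    exact hinv (γ p) p.1.1 p.1.2 p.2.1 p.2.2 (hγ1 p) (hγ2 p))
  exact ⟨h', hh'⟩

theorem aeval_inj (n : ℕ) (hn : 2 ≤ n) :
    Function.Injective (aeval (BRing.s n ^ n) : ℂ[X] →ₐ[ℂ] BRing n) := by
  rw [injective_iff_map_eq_zero]
  intro p hp
  have e : ∀ p : ℂ[X], aeval (BRing.s n ^ n) p =
      AdjoinRoot.of (X ^ (n - 1) - C (X ^ n - 1) : ℂ[X][X]) (expand ℂ n p) := by
    intro p
    have h1 : (aeval (BRing.s n ^ n) : ℂ[X] →ₐ[ℂ] BRing n) =
        ((Algebra.ofId ℂ[X] (BRing n)).restrictScalars ℂ).comp (expand ℂ n) := by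
      apply Polynomial.algHom_ext
      rw [aeval_X, AlgHom.comp_apply, expand_X, map_pow]
      rfl
    rw [h1]
    rfl
  rw [e] at hp
  have h2 := of_inj n hn (a₁ := expand ℂ n p) (a₂ := 0) (by rw [map_zero]; exact hp)
  rwa [expand_eq_zero (by omega)] at h2

/-- (MG-DESC) -/
theorem desc : S_DESC := by
  intro n hn hdom M _ h hinv
  exact desc_general n hn (BRing.s n) (BRing.t n) (s_ne n hn) (t_ne n hn) (rel n)
    (aeval_inj n hn) (bring_span n) (exists_gamma n) M h hinv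

end Pool.Agent.W417.MgA1
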