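import Pool.Agent.W417.MgA1.NI1

open Polynomial

namespace Pool.Agent.W417.MgA1

/-- `k^2 D = s^2 f`, `f` squarefree: `f` divides `D` -/
theorem sqf_dvd (k D s f : ℂ[X]) (hf : Squarefree f) (hk : k ≠ 0) (h : k ^ 2 * D = s ^ 2 * f) :
    f ∣ D := by
  obtain ⟨s', k', c, hrel, rfl, rfl⟩ :=
    UniqueFactorizationMonoid.exists_reduced_factors' s k hk
  have hc : c ≠ 0 := left_ne_zero_of_mul hk
  have h1 : k' ^ 2 * D = s' ^ 2 * f := by
    apply mul_left_cancel₀ (pow_ne_zero 2 hc)
    linear_combination h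
  have hco : IsCoprime (k' ^ 2) (s' ^ 2) := (hrel.isCoprime.symm).pow
  have h2 : k' ^ 2 ∣ f := hco.dvd_of_dvd_mul_left ⟨D, h1.symm⟩
  have h3 : IsUnit k' := hf k' (by rwa [← sq])
  have h4 : f ∣ k' ^ 2 * D := ⟨s' ^ 2, by rw [h1, mul_comm]⟩
  exact (h3.pow 2).dvd_mul_left.mp h4

/-- every element of `ℂ(x,y)` is `(r(x) + s(x) y)/q(x)` -/
theorem form {K : Type} [Field K] [Algebra ℂ K] (x y : K) (f : ℂ[X]) (hx : Transcendental ℂ x)
    (hy : y ^ 2 = aeval x f) (htop : IntermediateField.adjoin ℂ {x, y} = ⊤) (z : K) :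
    ∃ q r s : ℂ[X], q ≠ 0 ∧ z * aeval x q = aeval x r + aeval x s * y := by
  have hne : ∀ q : ℂ[X], q ≠ 0 → aeval x q ≠ 0 := by
    intro q hq h0
    exact hx ⟨q, hq, h0⟩
  let F : IntermediateField ℂ K :=
    { carrier := {z | ∃ q r s : ℂ[X], q ≠ 0 ∧ z * aeval x q = aeval x r + aeval x s * y}
      mul_mem' := by
        rintro z₁ z₂ ⟨q₁, r₁, s₁, h₁, e₁⟩ ⟨q₂, r₂, s₂, h₂, e₂⟩
        refine ⟨q₁ * q₂, r₁ * r₂ + s₁ * s₂ * f, r₁ * s₂ + s₁ * r₂, mul_ne_zero h₁ h₂, ?_⟩
        simp only [map_mul, map_add, ← hy]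
        linear_combination (z₂ * aeval x q₂) * e₁ + (aeval x r₁ + aeval x s₁ * y) * e₂
      add_mem' := by
        rintro z₁ z₂ ⟨q₁, r₁, s₁, h₁, e₁⟩ ⟨q₂, r₂, s₂, h₂, e₂⟩
        refine ⟨q₁ * q₂, r₁ * q₂ + r₂ * q₁, s₁ * q₂ + s₂ * q₁, mul_ne_zero h₁ h₂, ?_⟩
        simp only [map_mul, map_add]
        linear_combination (aeval x q₂) * e₁ + (aeval x q₁) * e₂
      algebraMap_mem' := by
        intro c
        exact ⟨1, C c, 0, one_ne_zero, by simp⟩
      inv_mem' := by
        rintro z ⟨q, r, s, hq, e⟩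
        by_cases hz : z = 0
        · subst hz
          exact ⟨1, 0, 0, one_ne_zero, by simp⟩
        by_cases hN : r ^ 2 - s ^ 2 * f = 0
        · have h1 : (aeval x r + aeval x s * y) * (aeval x r - aeval x s * y) = 0 := by
            have := congrArg (aeval x) hN
            simp only [map_sub, map_mul, map_pow, ← hy, map_zero] at this
            linear_combination this
          rw [← e] at h1
          have h2 : aeval x r - aeval x s * y = 0 := by
            rcases mul_eq_zero.mp h1 with h | h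
            · rcases mul_eq_zero.mp h with h | h
              · exact absurd h hz
              · exact absurd h (hne q hq)
            · exact h
          have h3 : z * aeval x q = 2 * aeval x r := by linear_combination e - h2
          have hr : r ≠ 0 := by
            intro h0
            rw [h0, map_zero, mul_zero] at h3
            rcases mul_eq_zero.mp h3 with h | h
            · exact hz h
            · exact hne q hq h
          refine ⟨2 * r, q, 0, mul_ne_zero two_ne_zero hr, ?_⟩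
          simp only [map_mul, map_zero, zero_mul, add_zero, map_ofNat]
          rw [← h3, ← mul_assoc, inv_mul_cancel₀ hz, one_mul]
        · refine ⟨r ^ 2 - s ^ 2 * f, q * r, - q * s, hN, ?_⟩
          simp only [map_mul, map_sub, map_pow, map_neg, ← hy]
          field_simp
          linear_combination (-(aeval x r - aeval x s * y)) * e }
  have hle : IntermediateField.adjoin ℂ {x, y} ≤ F := by
    rw [IntermediateField.adjoin_le_iff]
    rintro w (rfl | hw)
    · exact ⟨1, X, 0, one_ne_zero, by simp⟩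
    · rw [Set.mem_singleton_iff] at hw
      subst hw
      exact ⟨1, 0, 1, one_ne_zero, by simp⟩
  have : z ∈ F := by
    apply hle
    rw [htop]
    trivial
  exact this

theorem y_notin {K : Type} [Field K] [Algebra ℂ K] (x y : K) (f : ℂ[X])
    (hx : Transcendental ℂ x) (hy : y ^ 2 = aeval x f) (hf : Squarefree f)
    (hfd : 1 ≤ f.natDegree) (q r : ℂ[X]) (hq : q ≠ 0) (h : y * aeval x q = aeval x r) :
    False := by
  have hinj : ∀ p : ℂ[X], aeval x p = 0 → p = 0 := by
    intro p hp
    by_contra hne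
    exact hx ⟨p, hne, hp⟩
  have h1 : r ^ 2 * 1 = q ^ 2 * f := by
    rw [← sub_eq_zero]
    apply hinj
    simp only [map_sub, map_mul, map_pow, map_one, ← hy, ← h]
    ring
  have hr : r ≠ 0 := by
    intro h0
    rw [h0] at h1
    have : q ^ 2 * f ≠ 0 := mul_ne_zero (pow_ne_zero 2 hq) hf.ne_zero
    apply this
    rw [← h1]
    ring
  have h2 := sqf_dvd r 1 q f hf hr h1
  have h3 := natDegree_eq_zero_of_isUnit (isUnit_of_dvd_one h2)
  omega

theorem step1 {K : Type} [Field K] [Algebra ℂ K] (x y u v : K) (f h : ℂ[X])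
    (hx : Transcendental ℂ x) (hy : y ^ 2 = aeval x f)
    (hv : v ^ 2 = aeval u h) (hf : Squarefree f) (hfd : 5 ≤ f.natDegree)
    (htop1 : IntermediateField.adjoin ℂ {x, y} = ⊤)
    (hu : Transcendental ℂ u) (htop2 : IntermediateField.adjoin ℂ {u, v} = ⊤) :
    ∃ q r : ℂ[X], q ≠ 0 ∧ u * aeval x q = aeval x r := by
  have hinj : ∀ p : ℂ[X], aeval x p = 0 → p = 0 := by
    intro p hp
    by_contra hne
    exact hx ⟨p, hne, hp⟩
  obtain ⟨q, r, s, hq, e⟩ := form x y f hx hy htop1 u
  obtain ⟨q', r', s', hq', e'⟩ := form u v h hu hv htop2 x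
  by_cases hs : s = 0
  · refine ⟨q, r, hq, ?_⟩
    rw [e, hs, map_zero, zero_mul, add_zero]
  -- quadratic equations
  have hgen : ∀ (a b c : ℂ[X]), a ≠ 0 → ((C a * X - C b) ^ 2 - C c : ℂ[X][X]) ≠ 0 ∧
      ((C a * X - C b) ^ 2 - C c : ℂ[X][X]).natDegree ≤ 2 := by
    intro a b c ha
    have e1 : ((C a * X - C b) ^ 2 - C c : ℂ[X][X]) =
        C (a ^ 2) * X ^ 2 + C (- 2 * a * b) * X + C (b ^ 2 - c) := by
      simp only [C_mul, C_pow, C_sub, C_neg, map_ofNat]
      ring
    rw [e1]
    constructor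
    · intro h0
      have h3 : ∀ A B E : ℂ[X], (C A * X ^ 2 + C B * X + C E : ℂ[X][X]).coeff 2 = A := by
        intro A B E
        simp [coeff_X, coeff_C]
      have := congrArg (fun p => p.coeff 2) h0
      simp only [h3, coeff_zero] at this
      exact pow_ne_zero 2 ha this
    · exact natDegree_quadratic_le
  obtain ⟨hP0, hP0d⟩ := hgen q' r' (s' ^ 2 * h) hq'
  obtain ⟨hQ0, hQ0d⟩ := hgen q r (s ^ 2 * f) hq
  obtain ⟨P, hP, hPe, hPd, hPc⟩ := lemmaG x u hx 2 _ _ hP0 hP0d (by
    simp only [map_sub, map_mul, map_pow, ev_C, ev_X, ← hv]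
    have : x * aeval u q' - aeval u r' = aeval u s' * v := by rw [e']; ring
    rw [mul_comm (aeval u q') x, this]
    ring) hQ0 (by
    simp only [map_sub, map_mul, map_pow, ev_C, ev_X, ← hy]
    have : u * aeval x q - aeval x r = aeval x s * y := by rw [e]; ring
    rw [mul_comm (aeval x q) u, this]
    ring)
  have hPd2 : P.natDegree ≤ 2 := hPd.trans hQ0d
  have hPq : P = C (P.coeff 2) * X ^ 2 + C (P.coeff 1) * X + C (P.coeff 0) := by
    exact eq_quadratic_of_degree_le_two (natDegree_le_iff_degree_le.mp hPd2)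
  set c2 := P.coeff 2 with hc2
  set c1 := P.coeff 1 with hc1
  set c0 := P.coeff 0 with hc0
  have hE : aeval x c2 * u ^ 2 + aeval x c1 * u + aeval x c0 = 0 := by
    have := hPe
    rw [hPq] at this
    simpa only [map_add, map_mul, map_pow, ev_C, ev_X] using this
  by_cases h2 : c2 = 0
  · rw [h2, map_zero, zero_mul, zero_add] at hE
    by_cases h1 : c1 = 0
    · rw [h1, map_zero, zero_mul, zero_add] at hE
      have := hinj _ hE
      rw [h2, h1, this] at hPq
      exact absurd (by simpa using hPq) hP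
    · refine ⟨c1, -c0, h1, ?_⟩
      rw [map_neg]
      linear_combination hE
  · exfalso
    -- the discriminant
    have hD : (2 * aeval x c2 * u + aeval x c1) ^ 2 = aeval x (c1 ^ 2 - 4 * c2 * c0) := by
      simp only [map_sub, map_mul, map_pow, map_ofNat]
      linear_combination (4 * aeval x c2) * hE
    set D := c1 ^ 2 - 4 * c2 * c0 with hDdef
    have hDdeg : D.natDegree ≤ 4 := by
      have a1 : (c1 ^ 2).natDegree ≤ 4 := by
        refine natDegree_pow_le.trans ?_
        have h5 : c1.natDegree ≤ 2 := hPc 1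
        omega
      have a2 : (4 * c2 * c0).natDegree ≤ 4 := by
        have h4 : (4 : ℂ[X]) = C 4 := rfl
        rw [h4, mul_assoc]
        refine (natDegree_C_mul_le _ _).trans (natDegree_mul_le.trans ?_)
        have h5 : c2.natDegree ≤ 2 := hPc 2
        have h6 : c0.natDegree ≤ 2 := hPc 0
        omega
      exact (natDegree_sub_le _ _).trans (max_le a1 a2)
    set r1 := 2 * c2 * r + c1 * q with hr1
    set s1 := 2 * c2 * s with hs1
    have hs1n : s1 ≠ 0 := mul_ne_zero (mul_ne_zero two_ne_zero h2) hs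
    have hw : (2 * aeval x c2 * u + aeval x c1) * aeval x q = aeval x r1 + aeval x s1 * y := by
      simp only [hr1, hs1, map_add, map_mul, map_ofNat]
      linear_combination (2 * aeval x c2) * e
    have hw2 : y * aeval x (2 * r1 * s1) = aeval x (q ^ 2 * D - r1 ^ 2 - s1 ^ 2 * f) := by
      simp only [map_sub, map_mul, map_pow, map_ofNat, ← hy, ← hD]
      linear_combination (-(2 * aeval x c2 * u + aeval x c1) * aeval x q -
        (aeval x r1 + aeval x s1 * y)) * hw
    have hr10 : r1 = 0 := by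
      by_contra hne
      exact y_notin x y f hx hy hf (by omega) _ _
        (mul_ne_zero (mul_ne_zero two_ne_zero hne) hs1n) hw2
    have hk : q ^ 2 * D = s1 ^ 2 * f := by
      rw [← sub_eq_zero]
      apply hinj
      rw [hr10] at hw2
      have h9 : aeval x (q ^ 2 * D - 0 ^ 2 - s1 ^ 2 * f) = 0 := by
        rw [← hw2]; simp
      simpa using h9
    have hdv := sqf_dvd q D s1 f hf hq hk
    have hDn : D ≠ 0 := by
      intro h0
      rw [h0, mul_zero] at hk
      exact (mul_ne_zero (pow_ne_zero 2 hs1n) hf.ne_zero) hk.symm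
    have := natDegree_le_of_dvd hdv hDn
    omega

theorem step2 {K : Type} [Field K] [Algebra ℂ K] (x u : K)
    (hx : Transcendental ℂ x) (q r q' r' : ℂ[X]) (hq : q ≠ 0) (hq' : q' ≠ 0)
    (e : u * aeval x q = aeval x r) (e' : x * aeval u q' = aeval u r') :
    ∃ p t : ℂ[X], t ≠ 0 ∧ p.natDegree ≤ 1 ∧ t.natDegree ≤ 1 ∧ u * aeval x t = aeval x p := by
  have hinj : ∀ p : ℂ[X], aeval x p = 0 → p = 0 := by
    intro p hp
    by_contra hne
    exact hx ⟨p, hne, hp⟩
  have hgen : ∀ (a b : ℂ[X]), a ≠ 0 → (C a * X - C b : ℂ[X][X]) ≠ 0 ∧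
      (C a * X - C b : ℂ[X][X]).natDegree ≤ 1 := by
    intro a b ha
    have e1 : (C a * X - C b : ℂ[X][X]) = C a * X + C (-b) := by
      rw [C_neg]; ring
    rw [e1]
    constructor
    · intro h0
      have := congrArg (fun p => p.coeff 1) h0
      simp [coeff_C] at this
      exact ha this
    · exact natDegree_linear_le
  obtain ⟨hP0, hP0d⟩ := hgen q' r' hq'
  obtain ⟨hQ0, hQ0d⟩ := hgen q r hq
  obtain ⟨P, hP, hPe, hPd, hPc⟩ := lemmaG x u hx 1 _ _ hP0 hP0d (by
    simp only [map_sub, map_mul, ev_C, ev_X]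
    rw [← e']; ring) hQ0 (by
    simp only [map_sub, map_mul, ev_C, ev_X]
    rw [← e]; ring)
  have hPd1 : P.natDegree ≤ 1 := hPd.trans hQ0d
  have hPq : P = C (P.coeff 1) * X + C (P.coeff 0) :=
    eq_X_add_C_of_natDegree_le_one hPd1
  have hE : aeval x (P.coeff 1) * u + aeval x (P.coeff 0) = 0 := by
    have := hPe
    rw [hPq] at this
    simpa only [map_add, map_mul, ev_C, ev_X] using this
  have h1 : P.coeff 1 ≠ 0 := by
    intro h1
    rw [h1, map_zero, zero_mul, zero_add] at hE
    have h0 := hinj _ hE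
    rw [h1, h0] at hPq
    exact absurd (by simpa using hPq) hP
  refine ⟨-P.coeff 0, P.coeff 1, h1, ?_, hPc 1, ?_⟩
  · rw [natDegree_neg]; exact hPc 0
  · rw [map_neg]
    linear_combination hE

end Pool.Agent.W417.MgA1
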