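import Mathlib

open Polynomial

namespace Pool.Agent.W417.MgA1

theorem step4 (k : ℕ) (hk : 1 ≤ k) (α β γ δ l a b : ℂ) (hb : b ≠ 0)
    (hdet : α * δ - β * γ ≠ 0)
    (E : (C α * X + C β : ℂ[X]) ^ (k + 3) -
      C b * (C α * X + C β) * (C γ * X + C δ) ^ (k + 2) = C l * (X ^ (k + 3) - C a)) : False := by
  have E1 : ((k : ℂ[X]) + 3) * C α * (C α * X + C β) ^ (k + 2) -
      C b * C α * (C γ * X + C δ) ^ (k + 2) -
      C b * (C α * X + C β) * ((k : ℂ[X]) + 2) * C γ * (C γ * X + C δ) ^ (k + 1) =
      C l * ((k : ℂ[X]) + 3) * X ^ (k + 2) := by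
    have := congrArg derivative E
    simp only [derivative_sub, derivative_mul, derivative_pow, derivative_add, derivative_C,
      derivative_X, zero_mul, mul_one, zero_add, add_zero, sub_zero, Nat.add_sub_cancel,
      show k + 3 - 1 = k + 2 from rfl, show k + 2 - 1 = k + 1 from rfl, Nat.cast_add,
      map_add, map_natCast, Nat.cast_ofNat, map_ofNat] at this
    linear_combination this
  have E2 : ((k : ℂ[X]) + 3) * ((k : ℂ[X]) + 2) * C α ^ 2 * (C α * X + C β) ^ (k + 1) -
      2 * C b * C α * C γ * ((k : ℂ[X]) + 2) * (C γ * X + C δ) ^ (k + 1) -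
      C b * (C α * X + C β) * ((k : ℂ[X]) + 2) * ((k : ℂ[X]) + 1) * C γ ^ 2 *
        (C γ * X + C δ) ^ k =
      C l * ((k : ℂ[X]) + 3) * ((k : ℂ[X]) + 2) * X ^ (k + 1) := by
    have := congrArg derivative E1
    simp only [derivative_sub, derivative_mul, derivative_pow, derivative_add, derivative_C,
      derivative_X, zero_mul, mul_one, zero_add, add_zero, sub_zero, Nat.add_sub_cancel,
      derivative_natCast, derivative_ofNat, mul_zero,
      show k + 2 - 1 = k + 1 from rfl, show k + 1 - 1 = k from rfl, Nat.cast_add,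
      map_add, map_natCast, Nat.cast_ofNat, map_ofNat, Nat.cast_one, map_one] at this
    linear_combination this
  have key : ∀ z : ℂ, ((k : ℂ) + 3) * α * β * (α * z + β) ^ (k + 1) =
      b * (γ * z + δ) ^ k * ((α * δ + β * γ) * (γ * z + δ) + (k + 1) * γ * δ * (α * z + β)) := by
    intro z
    have F1 := congrArg (eval z) E1
    have F2 := congrArg (eval z) E2
    simp only [eval_sub, eval_mul, eval_pow, eval_add, eval_C, eval_X, eval_natCast,
      eval_ofNat, eval_one] at F1 F2
    have hk2 : ((k : ℂ) + 2) ≠ 0 := by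
      have : ((k + 2 : ℕ) : ℂ) ≠ 0 := Nat.cast_ne_zero.mpr (by omega)
      simpa using this
    apply mul_left_cancel₀ hk2
    linear_combination ((k : ℂ) + 2) * F1 - z * F2
  by_cases hγ : γ = 0
  · have hα : α ≠ 0 := by
      intro h0
      apply hdet
      rw [h0, hγ]; ring
    have hδ : δ ≠ 0 := by
      intro h0
      apply hdet
      rw [h0, hγ]; ring
    have h1 := key (-β / α)
    have h2 : α * (-β / α) + β = 0 := by field_simp; ring
    rw [h2, hγ] at h1
    simp only [zero_pow (Nat.succ_ne_zero k), mul_zero, zero_mul, add_zero, zero_add] at h1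
    have h3 : b * δ ^ k * (α * δ * δ) ≠ 0 :=
      mul_ne_zero (mul_ne_zero hb (pow_ne_zero _ hδ)) (mul_ne_zero (mul_ne_zero hα hδ) hδ)
    exact h3 h1.symm
  · have h1 := key (-δ / γ)
    have h2 : γ * (-δ / γ) + δ = 0 := by field_simp; ring
    have h3 : α * (-δ / γ) + β ≠ 0 := by
      intro h0
      apply hdet
      field_simp at h0
      linear_combination -h0
    rw [h2, zero_pow (by omega), mul_zero, zero_mul] at h1
    have hk3 : ((k : ℂ) + 3) ≠ 0 := by
      have : ((k + 3 : ℕ) : ℂ) ≠ 0 := Nat.cast_ne_zero.mpr (by omega)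
      simpa using this
    have hk1 : ((k : ℂ) + 1) ≠ 0 := by
      have : ((k + 1 : ℕ) : ℂ) ≠ 0 := Nat.cast_ne_zero.mpr (by omega)
      simpa using this
    have hαβ : α * β = 0 := by
      rcases mul_eq_zero.mp h1 with h | h
      · rcases mul_eq_zero.mp h with h | h
        · rcases mul_eq_zero.mp h with h | h
          · exact absurd h hk3
          · rw [h, zero_mul]
        · rw [h, mul_zero]
      · exact absurd (pow_eq_zero_iff (by omega) |>.mp h) h3
    -- the polynomial identity `t^k * (...) = 0`
    have hP : (C γ * X + C δ : ℂ[X]) ^ k *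
        (C (α * δ + β * γ) * (C γ * X + C δ) + C ((k + 1) * γ * δ) * (C α * X + C β)) = 0 := by
      apply Polynomial.funext
      intro z
      have h4 := key z
      rw [mul_assoc _ α β, hαβ, mul_zero, zero_mul] at h4
      simp only [eval_mul, eval_pow, eval_add, eval_C, eval_X, eval_zero]
      have h5 : b * ((γ * z + δ) ^ k * ((α * δ + β * γ) * (γ * z + δ) +
        (k + 1) * γ * δ * (α * z + β))) = 0 := by rw [h4]; ring
      exact (mul_eq_zero.mp h5).resolve_left hb
    have ht : (C γ * X + C δ : ℂ[X]) ≠ 0 := by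
      intro h0
      apply hγ
      have := congrArg (fun p => p.coeff 1) h0
      simpa [coeff_C] using this
    have hQ := (mul_eq_zero.mp hP).resolve_left (pow_ne_zero _ ht)
    have h5 := congrArg (eval (-δ / γ)) hQ
    simp only [eval_mul, eval_add, eval_C, eval_X, eval_zero, h2, mul_zero, zero_add] at h5
    have hδ : δ = 0 := by
      rcases mul_eq_zero.mp h5 with h | h
      · rcases mul_eq_zero.mp h with h | h
        · rcases mul_eq_zero.mp h with h | h
          · exact absurd h hk1
          · exact absurd h hγ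
        · exact h
      · exact absurd h h3
    have h6 := congrArg (eval 1) hQ
    simp only [eval_mul, eval_add, eval_C, eval_X, eval_zero] at h6
    rw [hδ] at h6
    have h7 : (β * γ) * γ = 0 := by linear_combination h6
    have h8 := (mul_eq_zero.mp h7).resolve_right hγ
    apply hdet
    rw [hδ, h8]
    ring

end Pool.Agent.W417.MgA1
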