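import Pool.Agent.W525.MgA1.Stubs
import Pool.Agent.W417.MgA1.NI2
import Pool.Agent.W417.MgA1.NI3

open Polynomial
open W525.MgA1

namespace Pool.Agent.W417.MgA1

theorem sqf_f (n : ℕ) (hn : 6 ≤ n) (a : ℂ) (ha : a ≠ 0) :
    Squarefree (X ^ n - C a : ℂ[X]) := by
  apply Polynomial.Separable.squarefree
  exact separable_X_pow_sub_C a (by exact_mod_cast (show n ≠ 0 by omega)) ha

theorem sqf_h (n : ℕ) (hn : 6 ≤ n) (b : ℂ) (hb : b ≠ 0) :
    Squarefree (X ^ n - C b * X : ℂ[X]) := by
  obtain ⟨k, rfl⟩ : ∃ k, n = k + 2 := ⟨n - 2, by omega⟩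
  have e : (X ^ (k + 2) - C b * X : ℂ[X]) = X * (X ^ (k + 1) - C b) := by ring
  rw [e]
  apply Polynomial.Separable.squarefree
  apply Separable.mul separable_X
    (separable_X_pow_sub_C b (by exact_mod_cast (show k + 1 ≠ 0 by omega)) hb)
  refine ⟨C b⁻¹ * X ^ k, - C b⁻¹, ?_⟩
  have : (C b⁻¹ * C b : ℂ[X]) = 1 := by
    rw [← C_mul, inv_mul_cancel₀ hb, C_1]
  linear_combination this

theorem deg_f (n : ℕ) (hn : 6 ≤ n) (a : ℂ) : (X ^ n - C a : ℂ[X]).natDegree = n :=
  natDegree_X_pow_sub_C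

theorem deg_h (n : ℕ) (hn : 6 ≤ n) (b : ℂ) : (X ^ n - C b * X : ℂ[X]).natDegree = n := by
  rw [natDegree_sub_eq_left_of_natDegree_lt]
  · exact natDegree_X_pow n
  · rw [natDegree_X_pow]
    have h1 : (C b * X : ℂ[X]).natDegree ≤ 1 :=
      (natDegree_C_mul_le _ _).trans natDegree_X_le
    omega

theorem ni : S_NI := by
  intro n heven hn a b ha hb K _ _ x y u v hx hu hy hv htop1 htop2
  have hxinj : ∀ p : ℂ[X], aeval x p = 0 → p = 0 := by
    intro p hp
    by_contra hne
    exact hx ⟨p, hne, hp⟩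
  have hy' : y ^ 2 = aeval x (X ^ n - C a : ℂ[X]) := by
    rw [hy]; simp
  have hv' : v ^ 2 = aeval u (X ^ n - C b * X : ℂ[X]) := by
    rw [hv]; simp
  obtain ⟨q, r, hq, e⟩ := step1 x y u v _ _ hx hy' hv' (sqf_f n hn a ha)
    (by rw [deg_f n hn]; omega) htop1 hu htop2
  obtain ⟨q', r', hq', e'⟩ := step1 u v x y _ _ hu hv' hy' (sqf_h n hn b hb)
    (by rw [deg_h n hn]; omega) htop2 hx htop1
  obtain ⟨p, t, ht, hpd, htd, ept⟩ := step2 x u hx q r q' r' hq hq' e e'
  have htx : aeval x t ≠ 0 := fun h => ht (hxinj t h)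
  have hp1 := eq_X_add_C_of_natDegree_le_one hpd
  have ht1 := eq_X_add_C_of_natDegree_le_one htd
  set α := p.coeff 1
  set β := p.coeff 0
  set γ := t.coeff 1
  set δ := t.coeff 0
  -- the determinant
  have hdet : α * δ - β * γ ≠ 0 := by
    intro hd
    have hc : ∃ c : ℂ, p = C c * t := by
      by_cases hγ : γ = 0
      · have hδ : δ ≠ 0 := by
          intro h0
          apply ht
          rw [ht1, hγ, h0]; simp
        refine ⟨β / δ, ?_⟩
        have hα : α = 0 := by
          rw [hγ, mul_zero, sub_zero] at hd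
          exact (mul_eq_zero.mp hd).resolve_right hδ
        rw [hp1, ht1, hα, hγ]
        simp only [C_0, zero_mul, zero_add, ← C_mul]
        rw [div_mul_cancel₀ _ hδ]
      · refine ⟨α / γ, ?_⟩
        rw [hp1, ht1, mul_add, ← mul_assoc, ← C_mul, ← C_mul, div_mul_cancel₀ _ hγ]
        congr 2
        field_simp
        linear_combination -hd
    obtain ⟨c, hc⟩ := hc
    rw [hc, map_mul, aeval_C] at ept
    have huc : u = algebraMap ℂ K c := mul_right_cancel₀ htx ept
    apply hu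
    rw [huc]
    exact isAlgebraic_algebraMap c
  -- v
  obtain ⟨k, r₁, s₁, hk, ev1⟩ := form x y _ hx hy' htop1 v
  have hkx : aeval x k ≠ 0 := fun h => hk (hxinj k h)
  have hs₁ : s₁ ≠ 0 := by
    intro hs
    rw [hs, map_zero, zero_mul, add_zero] at ev1
    have hux : u ∈ IntermediateField.adjoin ℂ {x} := by
      rw [IntermediateField.mem_adjoin_simple_iff]
      exact ⟨p, t, by rw [eq_div_iff htx, ept]⟩
    have hvx : v ∈ IntermediateField.adjoin ℂ {x} := by
      rw [IntermediateField.mem_adjoin_simple_iff]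
      exact ⟨r₁, k, by rw [eq_div_iff hkx, ev1]⟩
    have hle : IntermediateField.adjoin ℂ {u, v} ≤ IntermediateField.adjoin ℂ {x} := by
      rw [IntermediateField.adjoin_le_iff]
      rintro w (rfl | hw)
      · exact hux
      · rw [Set.mem_singleton_iff] at hw
        subst hw
        exact hvx
    have hyx : y ∈ IntermediateField.adjoin ℂ {x} := by
      apply hle
      rw [htop2]
      trivial
    rw [IntermediateField.mem_adjoin_simple_iff] at hyx
    obtain ⟨r₂, q₂, h2⟩ := hyx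
    by_cases hq2 : aeval x q₂ = 0
    · rw [hq2, div_zero] at h2
      apply y_notin x y _ hx hy' (sqf_f n hn a ha) (by rw [deg_f n hn]; omega) 1 0 one_ne_zero
      rw [h2]; simp
    · apply y_notin x y _ hx hy' (sqf_f n hn a ha) (by rw [deg_f n hn]; omega) q₂ r₂
      · intro h0
        rw [h0, map_zero] at hq2
        exact hq2 rfl
      · rw [h2, div_mul_cancel₀ _ hq2]
  obtain ⟨m, hm⟩ := heven
  set f : ℂ[X] := X ^ n - C a with hf
  set H : ℂ[X] := p ^ n - C b * p * t ^ (n - 1) with hH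
  have hHe : aeval x (t ^ n) * v ^ 2 = aeval x H := by
    rw [hv, hH]
    simp only [map_sub, map_mul, map_pow, aeval_C, ← ept]
    have : (aeval x t) ^ n = (aeval x t) ^ (n - 1) * aeval x t := by
      rw [← pow_succ, Nat.sub_add_cancel (by omega)]
    rw [mul_sub, mul_pow]
    rw [this]
    ring
  have hE : y * aeval x (2 * r₁ * s₁ * t ^ n) =
      aeval x (k ^ 2 * H - t ^ n * r₁ ^ 2 - t ^ n * s₁ ^ 2 * f) := by
    simp only [map_sub, map_mul, map_pow, map_ofNat, ← hy', ← hHe]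
    linear_combination (-(aeval x t) ^ n * (v * aeval x k + (aeval x r₁ + aeval x s₁ * y))) * ev1
  have hr₁ : r₁ = 0 := by
    by_contra hne
    exact y_notin x y f hx hy' (sqf_f n hn a ha) (by rw [deg_f n hn]; omega) _ _
      (mul_ne_zero (mul_ne_zero (mul_ne_zero two_ne_zero hne) hs₁) (pow_ne_zero _ ht)) hE
  have hkH : k ^ 2 * H = (t ^ m * s₁) ^ 2 * f := by
    rw [← sub_eq_zero]
    apply hxinj
    have h9 : aeval x (k ^ 2 * H - t ^ n * 0 ^ 2 - t ^ n * s₁ ^ 2 * f) = 0 := by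
      rw [hr₁] at hE
      rw [← hE]
      simp
    rw [← h9, hm]
    congr 1
    ring
  have hdvd := sqf_dvd k H _ f (sqf_f n hn a ha) hk hkH
  have hH0 : H ≠ 0 := by
    intro h0
    rw [h0, mul_zero] at hkH
    exact (mul_ne_zero (pow_ne_zero 2 (mul_ne_zero (pow_ne_zero _ ht) hs₁))
      (sqf_f n hn a ha).ne_zero) hkH.symm
  have hHd : H.natDegree ≤ n := by
    have a1 : (p ^ n).natDegree ≤ n := by
      refine natDegree_pow_le.trans ?_
      nlinarith
    have a2 : (C b * p * t ^ (n - 1)).natDegree ≤ n := by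
      rw [mul_assoc]
      refine (natDegree_C_mul_le _ _).trans (natDegree_mul_le.trans ?_)
      have : (t ^ (n - 1)).natDegree ≤ n - 1 := by
        refine natDegree_pow_le.trans ?_
        nlinarith
      omega
    exact (natDegree_sub_le _ _).trans (max_le a1 a2)
  obtain ⟨g, hg⟩ := hdvd
  have hg0 : g ≠ 0 := by
    intro h0
    rw [h0, mul_zero] at hg
    exact hH0 hg
  have hgd : g.natDegree = 0 := by
    have h1 := natDegree_mul (sqf_f n hn a ha).ne_zero hg0
    rw [← hf, ← hg, hf, deg_f n hn] at h1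
    omega
  have hgC := eq_C_of_natDegree_eq_zero hgd
  obtain ⟨k', hk'⟩ : ∃ k', n = k' + 3 := ⟨n - 3, by omega⟩
  apply step4 k' (by omega) α β γ δ (g.coeff 0) a b hb hdet
  have h5 := hg
  rw [hgC, hH, hf, hk', hp1, ht1, show k' + 3 - 1 = k' + 2 from rfl] at h5
  rw [h5]
  ring

end Pool.Agent.W417.MgA1
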