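import Mathlib

open Polynomial

namespace Pool.Agent.W417.MgA1

/-- evaluation of a bivariate polynomial, inner variable at `x`, outer variable at `u` -/
noncomputable def ev {K : Type} [Field K] [Algebra ℂ K] (x u : K) : ℂ[X][X] →+* K :=
  eval₂RingHom (aeval x : ℂ[X] →ₐ[ℂ] K).toRingHom u

theorem ev_C {K : Type} [Field K] [Algebra ℂ K] (x u : K) (p : ℂ[X]) :
    ev x u (C p) = aeval x p := by
  simp [ev]

theorem ev_X {K : Type} [Field K] [Algebra ℂ K] (x u : K) :
    ev x u X = u := by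
  simp [ev]

theorem ev_swap {K : Type} [Field K] [Algebra ℂ K] (x u : K) (P : ℂ[X][X]) :
    ev x u (Bivariate.swap P) = ev u x P := by
  have h : (ev x u).comp (Bivariate.swap (R := ℂ)).toRingEquiv.toRingHom = ev u x := by
    apply Polynomial.ringHom_ext'
    · apply Polynomial.ringHom_ext'
      · ext c
        show ev x u (Bivariate.swap (C (C c))) = ev u x (C (C c))
        rw [Bivariate.swap_C_C, ev_C, ev_C, aeval_C, aeval_C]
      · show ev x u (Bivariate.swap (C X)) = ev u x (C X)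
        rw [Bivariate.swap_X, ev_C, aeval_X, ev_X]
    · show ev x u (Bivariate.swap X) = ev u x X
      rw [Bivariate.swap_Y, ev_C, aeval_X, ev_X]
  exact congrArg (fun f : ℂ[X][X] →+* K => f P) h

theorem swap_coeff (P : ℂ[X][X]) (d : ℕ) (hd : P.natDegree ≤ d) (i : ℕ) :
    ((Bivariate.swap P).coeff i).natDegree ≤ d := by
  rw [P.as_sum_range' (d + 1) (by omega), map_sum, finsetSum_coeff]
  apply natDegree_sum_le_of_forall_le
  intro j hj
  rw [Bivariate.swap_monomial, coeff_mul_C, coeff_map]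
  refine (natDegree_mul_le).trans ?_
  rw [natDegree_C, natDegree_X_pow]
  have := Finset.mem_range.mp hj
  omega

/-- Gauss: an irreducible polynomial of positive degree vanishing at `u` has minimal degree -/
theorem gauss_deg {K : Type} [Field K] [Algebra ℂ K] (x u : K) (hx : Transcendental ℂ x)
    (P Q : ℂ[X][X]) (hP : Irreducible P) (hPe : ev x u P = 0) (hQ : Q ≠ 0)
    (hQe : ev x u Q = 0) : P.natDegree ≤ Q.natDegree := by
  let _ : Algebra ℂ[X] K := (aeval x : ℂ[X] →ₐ[ℂ] K).toRingHom.toAlgebra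
  have hmap : ∀ p : ℂ[X], algebraMap ℂ[X] K p = aeval x p := fun p => rfl
  have hinj : Function.Injective (algebraMap ℂ[X] K) := by
    rw [injective_iff_map_eq_zero]
    intro p hp
    rw [hmap] at hp
    by_contra hne
    exact hx ⟨p, hne, hp⟩
  let L := FractionRing ℂ[X]
  let _ : Algebra L K := (IsFractionRing.lift (K := L) hinj).toAlgebra
  have : IsScalarTower ℂ[X] L K := IsScalarTower.of_algebraMap_eq (by
    intro p
    exact (IsFractionRing.lift_algebraMap hinj p).symm)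
  have hae : ∀ R : ℂ[X][X], aeval u (R.map (algebraMap ℂ[X] L)) = ev x u R := by
    intro R
    rw [aeval_map_algebraMap]
    rfl
  have hdeg0 : P.natDegree ≠ 0 := by
    intro h0
    rw [eq_C_of_natDegree_eq_zero h0, ev_C] at hPe
    apply hx
    refine ⟨P.coeff 0, ?_, hPe⟩
    intro h1
    apply hP.ne_zero
    rw [eq_C_of_natDegree_eq_zero h0, h1, C_0]
  have hprim : P.IsPrimitive := hP.isPrimitive hdeg0
  have hirr : Irreducible (P.map (algebraMap ℂ[X] L)) :=
    hprim.irreducible_iff_irreducible_map_fraction_map.mp hP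
  have hdvd : P.map (algebraMap ℂ[X] L) ∣ Q.map (algebraMap ℂ[X] L) := by
    rw [← hirr.dvd_iff_aeval_eq_zero (b := u) (by rw [hae, hPe]), hae, hQe]
  have hinjL : Function.Injective (algebraMap ℂ[X] L) := IsFractionRing.injective ℂ[X] L
  have hQ' : Q.map (algebraMap ℂ[X] L) ≠ 0 := by
    rw [Ne, Polynomial.map_eq_zero_iff hinjL]
    exact hQ
  have := natDegree_le_of_dvd hdvd hQ'
  rwa [natDegree_map_eq_of_injective hinjL, natDegree_map_eq_of_injective hinjL] at this

theorem lemmaG {K : Type} [Field K] [Algebra ℂ K] (x u : K) (hx : Transcendental ℂ x)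
    (d : ℕ) (P0 Q0 : ℂ[X][X]) (hP0 : P0 ≠ 0) (hP0d : P0.natDegree ≤ d)
    (hP0e : ev u x P0 = 0) (hQ0 : Q0 ≠ 0) (hQ0e : ev x u Q0 = 0) :
    ∃ P : ℂ[X][X], P ≠ 0 ∧ ev x u P = 0 ∧ P.natDegree ≤ Q0.natDegree ∧
      ∀ i, (P.coeff i).natDegree ≤ d := by
  obtain ⟨f, hf, hfa⟩ := WfDvdMonoid.exists_factors P0 hP0
  have hker : (RingHom.ker (ev u x)).IsPrime := RingHom.ker_isPrime _
  have hmem : f.prod ∈ RingHom.ker (ev u x) := by
    rw [RingHom.mem_ker]
    obtain ⟨w, hw⟩ := hfa.symm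
    rw [← hw, map_mul, hP0e, zero_mul]
  obtain ⟨P1, hP1f, hP1e⟩ := (hker.multiset_prod_mem_iff_exists_mem f).mp hmem
  have hP1i := hf P1 hP1f
  have hP1d : P1 ∣ P0 := (Multiset.dvd_prod hP1f).trans hfa.dvd
  refine ⟨Bivariate.swap P1, ?_, ?_, ?_, ?_⟩
  · rw [Ne, EmbeddingLike.map_eq_zero_iff]
    exact hP1i.ne_zero
  · rw [ev_swap]
    exact hP1e
  · apply gauss_deg x u hx _ _ _ _ hQ0 hQ0e
    · exact (MulEquiv.irreducible_iff (Bivariate.swap (R := ℂ))).mpr hP1i
    · rw [ev_swap]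
      exact hP1e
  · exact swap_coeff P1 d ((natDegree_le_of_dvd hP1d hP0).trans hP0d)

end Pool.Agent.W417.MgA1
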